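import Pool.Agent.W587.MX.Stm

set_option autoImplicit false

namespace Pool.Agent.W750.MX

open Pool.Agent.W587.MX
open Set Filter Topology Metric

theorem inv_ne {f : ℂ → ℂ} {a0 : ℂ} {Z : ℂ → ℂ} (ha : a0 ≠ 0) (h : Inv f a0 Z) : Z a0 ≠ 0 := by
  obtain ⟨h1, h2⟩ := h.2.self_of_nhds
  intro h0
  rw [h0, zero_mul] at h2
  rw [h0] at h1
  exact (mul_ne_zero ha h1) h2.symm

theorem sp_ne {f fs : ℂ → ℂ} {K : ℕ} {a0 : ℂ} {z w : Fin K → ℂ} (h : SP f fs K a0 z w) (i : Fin K) :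
    z i ≠ 0 ∧ w i ≠ 0 := by
  obtain ⟨ha, _, Z, W, hZ, hW, _, _⟩ := h
  refine ⟨?_, ?_⟩
  · rw [← (hZ i).2]; exact inv_ne ha (hZ i).1
  · rw [← (hW i).2]; exact inv_ne ha (hW i).1

theorem s1 : S1_SYM := by
  intro f fs K a0 z w hSP
  refine ⟨?_, fun i => sp_ne hSP i⟩
  have hne := fun i => sp_ne hSP i
  obtain ⟨ha, hinj, Z, W, hZ, hW, htie, hnc⟩ := hSP
  refine ⟨ha, ?_, W, Z, hW, hZ, ?_, ?_⟩
  · intro i j hij
    have h1 := (htie i j).self_of_nhds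
    rw [(hZ i).2, (hZ j).2, (hW i).2, (hW j).2, hij] at h1
    exact hinj (mul_right_cancel₀ (hne j).2 h1)
  · intro i j
    filter_upwards [htie i j] with a h
    rw [mul_comm, h, mul_comm]
  · intro i h
    refine hnc i ?_
    filter_upwards [h] with a h
    rw [mul_comm, h, mul_comm]

theorem s2 (hU : T1_UNIQ) : S2_TIE := by
  intro f fs K a0 z w A g h g' t0 i j hf hfs hSP hA hA0 hg hh hg' hg0 hh0 hg'0 e1 e2 e3
  have hne := fun i => sp_ne hSP i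
  obtain ⟨ha, hinj, Z, W, hZ, hW, htie, hnc⟩ := hSP
  have u1 := hU f a0 (Z i) g A t0 hf (hZ i).1 hg hA (by rw [hg0, (hZ i).2]) hA0 e1
  have u2 := hU fs a0 (W i) h A t0 hfs (hW i).1 hh hA (by rw [hh0, (hW i).2]) hA0 e2
  have u3 := hU f a0 (Z j) g' A t0 hf (hZ j).1 hg' hA (by rw [hg'0, (hZ j).2]) hA0 e3
  have hT : Tendsto A (𝓝 t0) (𝓝 a0) := by rw [← hA0]; exact hA
  have u4 := hT.eventually (htie i j)
  have u5 := hT.eventually (hW j).1.2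
  have u6 : ∀ᶠ u in 𝓝 t0, g' u ≠ 0 := hg'.eventually_ne (by rw [hg'0]; exact (hne j).1)
  filter_upwards [u1, u2, u3, u4, u5, u6] with u k1 k2 k3 k4 k5 k6
  have k7 : g u * h u / g' u = W j (A u) := by
    rw [k1, k2, k4, k3]
    rw [k3] at k6
    field_simp
  rw [k7]
  exact ⟨k6, k5⟩

theorem s3 (hU : T1_UNIQ) : S3_NONC := by
  intro f fs K a0 z w A g h t0 i hf hfs hSP hA hA0 hdA hg hh hg0 hh0 e1 e2 hc
  obtain ⟨ha, hinj, Z, W, hZ, hW, htie, hnc⟩ := hSP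
  have hAc : ContinuousAt A t0 := hA.continuousAt
  have u1 := hU f a0 (Z i) g A t0 hf (hZ i).1 hg hAc (by rw [hg0, (hZ i).2]) hA0 e1
  have u2 := hU fs a0 (W i) h A t0 hfs (hW i).1 hh hAc (by rw [hh0, (hW i).2]) hA0 e2
  have hm : Filter.map A (𝓝 t0) = 𝓝 a0 := by
    rw [hA.hasStrictDerivAt.map_nhds_eq hdA, hA0]
  refine hnc i ?_
  rw [← hm, Filter.eventually_map]
  filter_upwards [u1, u2, hc] with u k1 k2 k3
  rw [← k1, ← k2, k3, hg0, hh0]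

end Pool.Agent.W750.MX
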